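import Pool.Agent.Lib.helper26.Dih

namespace Pool.Agent.Results.MP_d87a8f_pr.Dihedral
open Pool.Agent.Lib.helper26.Dih Filter Topology Real

theorem result : ∃ (G : ℕ → Type) (_ : ∀ a, Group (G a)) (_ : ∀ a, Fintype (G a)) (k : ℕ → ℕ),
    Tendsto (fun a => Fintype.card (G a)) atTop atTop ∧
    Tendsto (fun a => log (k a)) atTop atTop ∧
    Tendsto (fun a => log (k a) / log (Fintype.card (G a))) atTop (𝓝 0) ∧
    Tendsto (fun a => log (Fintype.card (G a)) / k a) atTop (𝓝 0) ∧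
    (∀ᶠ a in atTop, ∀ Z : Fin (k a) → G a, 1 / 4 ≤ d Z ((1 + 1 / 2) * tstar (G a) (k a))) ∧
    ¬ Cutoff G k fun a => tstar (G a) (k a) :=
  ⟨D, _, _, K, tcard, tK, tKD,
    tDK,
    (eventually_ge_atTop 4).mono fun _ => far, not_cutoff⟩

end Pool.Agent.Results.MP_d87a8f_pr.Dihedral
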